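import Mathlib

namespace Pool.Agent.Results.MP_b34cfe_co.Cap

/-- Every zero-sum sequence of length at least `L` has a zero-sum subsequence of length `m`. -/
def Good (G : Type) [AddCommGroup G] (m L : ℕ) : Prop :=
  ∀ S : Multiset G, S.sum = 0 → L ≤ S.card → ∃ T ≤ S, T.card = m ∧ T.sum = 0

/-- The least integer `l ≥ 2^d` not dividing `n`. -/
noncomputable def ell (n d : ℕ) : ℕ := sInf {l | 2 ^ d ≤ l ∧ ¬ l ∣ n}

abbrev G3 := Fin 3 → ZMod 3

def cap : List G3 :=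
  [![0,0,0], ![0,1,1], ![0,2,1], ![1,0,1], ![1,1,2], ![1,2,2], ![2,0,1], ![2,1,2], ![2,2,2]]

def S0 : Multiset G3 := ↑(cap ++ cap)

theorem key : ∀ a ∈ cap, ∀ b ∈ cap, ∀ c ∈ cap, a + (b + c) = 0 → a = b ∧ a = c := by
  decide +kernel

theorem cnt : ∀ a ∈ cap, S0.count a = 2 := by decide +kernel

theorem not_good : ¬ Good G3 3 18 := by
  intro h
  obtain ⟨T, hT, hc, hs⟩ := h S0 (by decide +kernel) (by decide +kernel)
  obtain ⟨a, b, c, rfl⟩ := Multiset.card_eq_three.1 hc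
  have m : ∀ x ∈ ({a, b, c} : Multiset G3), x ∈ cap := fun x hx => by
    simpa [S0] using Multiset.mem_of_le hT hx
  have ha := m a (by simp)
  obtain ⟨rfl, rfl⟩ := key a ha b (m b (by simp)) c (m c (by simp)) (by simpa using hs)
  have := Multiset.count_le_of_le a hT
  rw [cnt a ha] at this
  simp at this

theorem result :
    ¬ Good (Fin 3 → ZMod 3) 3 18 ∧
    ¬ ∀ n t d : ℕ, 0 < n → 0 < t → 0 < d →
      ∃ L : ℕ, Good (Fin d → ZMod n) (n * t) L ∧
        (L : ℤ) ≤ ((t : ℤ) + 2 ^ d - 1) * n - ell n d + 1 := by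
  refine ⟨not_good, fun h => ?_⟩
  obtain ⟨L, h1, h2⟩ := h 3 1 3 (by decide) (by decide) (by decide)
  have h3 : 2 ^ 3 ≤ ell 3 3 := (Nat.sInf_mem (s := {l | 2 ^ 3 ≤ l ∧ ¬ l ∣ 3}) ⟨8, by decide⟩).1
  exact not_good fun S hs hl => h1 S hs (by push_cast at h2; omega)

end Pool.Agent.Results.MP_b34cfe_co.Cap
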